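import Pool.Agent.X164.CylSym

set_option autoImplicit false

namespace Pool.Agent.Results.MP_f102ee_gt.AlwaysProjectionInvariant

open Pool.Agent.X164.CylSym

/-- For every dimension `n`, every subspace `H` and each of the two classes `B`, there is no
symmetrization that is strictly monotonic, idempotent and invariant on `H`-symmetric spherical
cylinders without being projection invariant. -/
theorem result (n : ℕ) (H : Submodule ℝ (E n)) (B : Set (Set (E n)))
    (hB : B = convexSets n ∨ B = convexBodies n) :
    ¬ ∃ S : Set (E n) → Set (E n),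
      IsSymmetrization H B S ∧ IsMonotonic B S ∧
      (∀ K ∈ B, ∀ L ∈ B, K ⊂ L → S K ≠ S L) ∧ (∀ K ∈ B, S (S K) = S K) ∧
      FixesCylinders H S ∧ ¬ IsProjectionInvariant H B S := by
  rintro ⟨S, hsym, hmon, -, -, hfix, hnot⟩
  exact hnot (projectionInvariant H B hB S hsym hmon hfix)

end Pool.Agent.Results.MP_f102ee_gt.AlwaysProjectionInvariant
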